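import Mathlib
import Pool.Agent.H.MP_dd1c2e_lc.Det

/-!
# Composing deterministic protocols
-/

namespace Pool.Agent.H.MP_dd1c2e_lc

open Finset

theorem comp_ext {X X' Y Y' : Type} (i : X' → X) (hi : Function.Injective i) (j : Y' → Y)
    (hj : Function.Injective j) (P : DProt X' Y') :
    ∃ Q : DProt X Y, Q.depth = P.depth ∧ ∀ x y, Q.run (i x) (j y) = P.run x y := by
  classical
  induction P with
  | leaf b => exact ⟨.leaf b, rfl, fun _ _ => rfl⟩
  | alice f P Q ihP ihQ =>
    obtain ⟨P', hP1, hP2⟩ := ihP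
    obtain ⟨Q', hQ1, hQ2⟩ := ihQ
    refine ⟨.alice (fun x => if h : ∃ x', i x' = x then f (Classical.choose h) else false) P' Q',
      ?_, ?_⟩
    · simp only [DProt.depth, hP1, hQ1]
    · intro x y
      have h1 : (if h : ∃ x', i x' = i x then f (Classical.choose h) else false) = f x := by
        have h2 : ∃ x', i x' = i x := ⟨x, rfl⟩
        rw [dif_pos h2, hi (Classical.choose_spec h2)]
      simp only [DProt.run, h1, hP2, hQ2]
  | bob f P Q ihP ihQ =>
    obtain ⟨P', hP1, hP2⟩ := ihP
    obtain ⟨Q', hQ1, hQ2⟩ := ihQ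
    refine ⟨.bob (fun y => if h : ∃ y', j y' = y then f (Classical.choose h) else false) P' Q',
      ?_, ?_⟩
    · simp only [DProt.depth, hP1, hQ1]
    · intro x y
      have h1 : (if h : ∃ y', j y' = j y then f (Classical.choose h) else false) = f y := by
        have h2 : ∃ y', j y' = j y := ⟨y, rfl⟩
        rw [dif_pos h2, hj (Classical.choose_spec h2)]
      simp only [DProt.run, h1, hP2, hQ2]

theorem comp_comap {X X' Y Y' : Type} (i : X' → X) (j : Y' → Y) (P : DProt X Y) :
    ∃ Q : DProt X' Y', Q.depth = P.depth ∧ ∀ x y, Q.run x y = P.run (i x) (j y) := by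
  induction P with
  | leaf b => exact ⟨.leaf b, rfl, fun _ _ => rfl⟩
  | alice f P Q ihP ihQ =>
    obtain ⟨P', hP1, hP2⟩ := ihP
    obtain ⟨Q', hQ1, hQ2⟩ := ihQ
    refine ⟨.alice (fun x => f (i x)) P' Q', ?_, ?_⟩
    · simp only [DProt.depth, hP1, hQ1]
    · intro x y
      simp only [DProt.run, hP2, hQ2]
  | bob f P Q ihP ihQ =>
    obtain ⟨P', hP1, hP2⟩ := ihP
    obtain ⟨Q', hQ1, hQ2⟩ := ihQ
    refine ⟨.bob (fun y => f (j y)) P' Q', ?_, ?_⟩
    · simp only [DProt.depth, hP1, hQ1]
    · intro x y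
      simp only [DProt.run, hP2, hQ2]

theorem comp_swap {X Y : Type} (P : DProt X Y) :
    ∃ Q : DProt Y X, Q.depth = P.depth ∧ ∀ x y, Q.run y x = P.run x y := by
  induction P with
  | leaf b => exact ⟨.leaf b, rfl, fun _ _ => rfl⟩
  | alice f P Q ihP ihQ =>
    obtain ⟨P', hP1, hP2⟩ := ihP
    obtain ⟨Q', hQ1, hQ2⟩ := ihQ
    refine ⟨.bob f P' Q', ?_, ?_⟩
    · simp only [DProt.depth, hP1, hQ1]
    · intro x y
      simp only [DProt.run, hP2, hQ2]
  | bob f P Q ihP ihQ =>
    obtain ⟨P', hP1, hP2⟩ := ihP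
    obtain ⟨Q', hQ1, hQ2⟩ := ihQ
    refine ⟨.alice f P' Q', ?_, ?_⟩
    · simp only [DProt.depth, hP1, hQ1]
    · intro x y
      simp only [DProt.run, hP2, hQ2]

theorem comp_det_ext {X X' Y Y' : Type} {F : X' → Y' → Bool} {k : ℕ} (i : X' → X)
    (hi : Function.Injective i) (j : Y' → Y) (hj : Function.Injective j) (h : DetComputes F k) :
    ∃ Q : DProt X Y, Q.depth ≤ k ∧ ∀ x y, Q.run (i x) (j y) = F x y := by
  obtain ⟨P, h1, h2⟩ := h
  obtain ⟨Q, h3, h4⟩ := comp_ext i hi j hj P
  exact ⟨Q, h3.le.trans h1, fun x y => (h4 x y).trans (h2 x y)⟩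

theorem comp_det_comap {X X' Y Y' : Type} {F : X → Y → Bool} {k : ℕ} (i : X' → X) (j : Y' → Y)
    (h : DetComputes F k) : DetComputes (fun x y => F (i x) (j y)) k := by
  obtain ⟨P, h1, h2⟩ := h
  obtain ⟨Q, h3, h4⟩ := comp_comap i j P
  exact ⟨Q, h3.le.trans h1, fun x y => (h4 x y).trans (h2 _ _)⟩

theorem comp_det_swap {X Y : Type} {F : X → Y → Bool} {k : ℕ} (h : DetComputes F k) :
    DetComputes (fun y x => F x y) k := by
  obtain ⟨P, h1, h2⟩ := h
  obtain ⟨Q, h3, h4⟩ := comp_swap P
  exact ⟨Q, h3.le.trans h1, fun y x => (h4 x y).trans (h2 x y)⟩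

theorem comp_bits {Y : Type} {k : ℕ} : ∀ (m : ℕ) {X : Type} (F : X → Y → Bool)
    (g : X → Fin m → Bool)
    (_ : ∀ v, DetComputes (fun (x : {x : X // g x = v}) (y : Y) => F x.1 y) k),
    DetComputes F (m + k) := by
  intro m
  induction m with
  | zero =>
    intro X F g h
    obtain ⟨Q, h1, h2⟩ := comp_det_ext (Subtype.val : {x : X // g x = fun _ => false} → X)
      Subtype.val_injective (id : Y → Y) Function.injective_id (h (fun _ => false))
    refine ⟨Q, by omega, fun x y => ?_⟩
    exact h2 ⟨x, Subsingleton.elim _ _⟩ y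
  | succ m ih =>
    intro X F g h
    have key : ∀ b : Bool, ∃ Q : DProt X Y, Q.depth ≤ m + k ∧
        ∀ x y, g x 0 = b → Q.run x y = F x y := by
      intro b
      have h1 : DetComputes (fun (x : {x : X // g x 0 = b}) (y : Y) => F x.1 y) (m + k) := by
        refine ih (X := {x : X // g x 0 = b}) (fun x y => F x.1 y) (fun x => Fin.tail (g x.1)) ?_
        intro v
        have hmap : ∀ x : {x : {x : X // g x 0 = b} // Fin.tail (g x.1) = v},
            g x.1.1 = Fin.cons b v := by
          intro x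
          rw [← Fin.cons_self_tail (g x.1.1), x.1.2, x.2]
        exact comp_det_comap (fun x : {x : {x : X // g x 0 = b} // Fin.tail (g x.1) = v} =>
          (⟨x.1.1, hmap x⟩ : {x : X // g x = Fin.cons b v})) (id : Y → Y) (h (Fin.cons b v))
      obtain ⟨Q, h2, h3⟩ := comp_det_ext (Subtype.val : {x : X // g x 0 = b} → X)
        Subtype.val_injective (id : Y → Y) Function.injective_id h1
      exact ⟨Q, h2, fun x y hx => h3 ⟨x, hx⟩ y⟩
    obtain ⟨P, hP1, hP2⟩ := key true
    obtain ⟨Q, hQ1, hQ2⟩ := key false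
    refine ⟨.alice (fun x => g x 0) P Q, ?_, ?_⟩
    · simp only [DProt.depth]
      omega
    · intro x y
      simp only [DProt.run]
      by_cases h0 : g x 0 = true
      · rw [if_pos h0]
        exact hP2 x y h0
      · rw [if_neg h0]
        exact hQ2 x y (by simpa using h0)

/-- Alice sends the bits `g x`; for every value the remaining problem has a protocol with `k` bits. Induction on `m`: split
off the first bit. -/
theorem det_alice_bits {X Y : Type} {F : X → Y → Bool} {m k : ℕ} (g : X → Fin m → Bool)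
    (h : ∀ v, DetComputes (fun (x : {x : X // g x = v}) (y : Y) => F x.1 y) k) : DetComputes F (m + k) :=
  comp_bits m F g h

/-- The same for Bob (by symmetry, or by exchanging the roles of the two parties in the protocols). -/
theorem det_bob_bits {X Y : Type} {F : X → Y → Bool} {m k : ℕ} (g : Y → Fin m → Bool)
    (h : ∀ v, DetComputes (fun (x : X) (y : {y : Y // g y = v}) => F x y.1) k) : DetComputes F (m + k) :=
  comp_det_swap (comp_bits m (fun y x => F x y) g fun v => comp_det_swap (h v))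

/-- Alice sends an element of a set with at most `2^m` elements (encode it with `m` bits). -/
theorem det_alice {X Y A : Type} [Fintype A] {F : X → Y → Bool} {m k : ℕ} (g : X → A) (hA : Fintype.card A ≤ 2 ^ m)
    (h : ∀ v, DetComputes (fun (x : {x : X // g x = v}) (y : Y) => F x.1 y) k) : DetComputes F (m + k) := by
  have hc : Fintype.card A ≤ Fintype.card (Fin m → Bool) := by simpa using hA
  obtain ⟨e⟩ := Function.Embedding.nonempty_of_card_le hc
  refine comp_bits m F (fun x => e (g x)) fun v => ?_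
  by_cases hv : ∃ a, e a = v
  · obtain ⟨a, rfl⟩ := hv
    exact comp_det_comap (fun x : {x : X // e (g x) = e a} =>
      (⟨x.1, e.injective x.2⟩ : {x : X // g x = a})) (id : Y → Y) (h a)
  · exact ⟨.leaf false, Nat.zero_le _, fun x y => absurd ⟨g x.1, x.2⟩ hv⟩

theorem det_bob {X Y A : Type} [Fintype A] {F : X → Y → Bool} {m k : ℕ} (g : Y → A) (hA : Fintype.card A ≤ 2 ^ m)
    (h : ∀ v, DetComputes (fun (x : X) (y : {y : Y // g y = v}) => F x y.1) k) : DetComputes F (m + k) :=
  comp_det_swap (det_alice (F := fun y x => F x y) g hA fun v => comp_det_swap (h v))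

/-- If the answer depends on `x` only, one bit suffices. -/
theorem det_one {X Y : Type} {F : X → Y → Bool} (g : X → Bool) (h : ∀ x y, F x y = g x) : DetComputes F 1 := by
  refine ⟨.alice g (.leaf true) (.leaf false), by simp [DProt.depth], fun x y => ?_⟩
  rw [h x y]
  simp only [DProt.run]
  cases g x <;> simp

/-- If there is no input `y` (or no input `x`) nothing has to be sent. -/
theorem det_empty {X Y : Type} [IsEmpty Y] (F : X → Y → Bool) (k : ℕ) : DetComputes F k :=
  ⟨.leaf false, Nat.zero_le _, fun _ y => isEmptyElim y⟩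

end Pool.Agent.H.MP_dd1c2e_lc
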