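import Mathlib
import Pool.Agent.H.MP_dd1c2e_lc.G2

/-!
# Amplification by the majority of independent repetitions
-/

namespace Pool.Agent.H.MP_dd1c2e_lc

open Finset

/-- The probability that more than `l` of `2 l` independent events of probability `t` happen. -/
noncomputable def maj (l : ℕ) (t : ℝ) : ℝ := ∑ j ∈ (range (2 * l + 1)).filter (fun j => l < j), ((2 * l).choose j : ℝ) * (t ^ j * (1 - t) ^ (2 * l - j))

theorem Maj_term (l j : ℕ) (hj : l ≤ j) (hj2 : j ≤ 2 * l) {a b : ℝ} (ha : 0 ≤ a) (hab : a ≤ b) (h : a * b ≤ 2 / 9) :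
    a ^ j * b ^ (2 * l - j) ≤ (2 / 9) ^ l := by
  have hb : 0 ≤ b := ha.trans hab
  obtain ⟨i, rfl⟩ : ∃ i, j = l + i := ⟨j - l, by omega⟩
  have hi : i ≤ l := by omega
  have e1 : 2 * l - (l + i) = l - i := by omega
  have e2 : b ^ l = b ^ i * b ^ (l - i) := by
    rw [← pow_add]
    congr 1
    omega
  rw [e1]
  calc a ^ (l + i) * b ^ (l - i) = a ^ l * (a ^ i * b ^ (l - i)) := by
        rw [pow_add]
        ring
    _ ≤ a ^ l * (b ^ i * b ^ (l - i)) :=
        mul_le_mul_of_nonneg_left (mul_le_mul_of_nonneg_right (pow_le_pow_left₀ ha hab i) (pow_nonneg hb _))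
          (pow_nonneg ha _)
    _ = (a * b) ^ l := by rw [← e2, mul_pow]
    _ ≤ (2 / 9) ^ l := pow_le_pow_left₀ (mul_nonneg ha hb) h l

theorem Maj_sum_choose (l : ℕ) (q : ℕ → Prop) [DecidablePred q] (F : ℕ → ℝ)
    (hF : ∀ j ∈ (range (2 * l + 1)).filter q, F j ≤ (2 / 9) ^ l) :
    ∑ j ∈ (range (2 * l + 1)).filter q, ((2 * l).choose j : ℝ) * F j ≤ (8 / 9) ^ l := by
  calc ∑ j ∈ (range (2 * l + 1)).filter q, ((2 * l).choose j : ℝ) * F j
      ≤ ∑ j ∈ (range (2 * l + 1)).filter q, ((2 * l).choose j : ℝ) * (2 / 9) ^ l :=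
        Finset.sum_le_sum fun j hj => mul_le_mul_of_nonneg_left (hF j hj) (Nat.cast_nonneg _)
    _ ≤ ∑ j ∈ range (2 * l + 1), ((2 * l).choose j : ℝ) * (2 / 9) ^ l :=
        Finset.sum_le_sum_of_subset_of_nonneg (Finset.filter_subset _ _) fun j _ _ =>
          mul_nonneg (Nat.cast_nonneg _) (by positivity)
    _ = (8 / 9) ^ l := by
        rw [← Finset.sum_mul, ← Nat.cast_sum, Nat.sum_range_choose]
        push_cast
        rw [pow_mul, ← mul_pow]
        norm_num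

/-- `maj l t ≤ (8/9)^l` for `0 ≤ t ≤ 1/3`: for `j > l`, `t^j (1-t)^(2l-j) ≤ (t (1-t))^l ≤ (2/9)^l` and the binomial
coefficients have sum at most `4^l`. -/
theorem maj_small (l : ℕ) {t : ℝ} (h0 : 0 ≤ t) (h1 : t ≤ 1 / 3) : 0 ≤ maj l t ∧ maj l t ≤ (8 / 9) ^ l := by
  have h2 : 0 ≤ 1 - t := by linarith
  refine ⟨Finset.sum_nonneg fun j _ => mul_nonneg (Nat.cast_nonneg _)
    (mul_nonneg (pow_nonneg h0 _) (pow_nonneg h2 _)), ?_⟩
  unfold maj
  refine Maj_sum_choose l (fun j => l < j) (fun j => t ^ j * (1 - t) ^ (2 * l - j)) (fun j hj => ?_)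
  rw [Finset.mem_filter, Finset.mem_range] at hj
  refine Maj_term l j hj.2.le (by omega) h0 (by linarith) ?_
  nlinarith

/-- `1 - (8/9)^l ≤ maj l t ≤ 1` for `2/3 ≤ t ≤ 1`: the complementary sum over `j ≤ l` (the sum over all `j` is
`(t + (1 - t))^(2l) = 1`). -/
theorem maj_large (l : ℕ) {t : ℝ} (h0 : 2 / 3 ≤ t) (h1 : t ≤ 1) : 1 - (8 / 9) ^ l ≤ maj l t ∧ maj l t ≤ 1 := by
  have ht0 : 0 ≤ t := by linarith
  have h2 : 0 ≤ 1 - t := by linarith
  have htot : ∑ j ∈ range (2 * l + 1), ((2 * l).choose j : ℝ) * (t ^ j * (1 - t) ^ (2 * l - j)) = 1 := by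
    have h := add_pow t (1 - t) (2 * l)
    rw [add_sub_cancel, one_pow] at h
    refine Eq.trans ?_ h.symm
    refine Finset.sum_congr rfl fun j _ => ?_
    ring
  have hsplit := Finset.sum_filter_add_sum_filter_not (range (2 * l + 1)) (fun j => l < j)
    (fun j => ((2 * l).choose j : ℝ) * (t ^ j * (1 - t) ^ (2 * l - j)))
  rw [htot] at hsplit
  have hr0 : 0 ≤ ∑ j ∈ (range (2 * l + 1)).filter (fun j => ¬ l < j),
      ((2 * l).choose j : ℝ) * (t ^ j * (1 - t) ^ (2 * l - j)) :=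
    Finset.sum_nonneg fun j _ => mul_nonneg (Nat.cast_nonneg _) (mul_nonneg (pow_nonneg ht0 _) (pow_nonneg h2 _))
  have hr1 : ∑ j ∈ (range (2 * l + 1)).filter (fun j => ¬ l < j),
      ((2 * l).choose j : ℝ) * (t ^ j * (1 - t) ^ (2 * l - j)) ≤ (8 / 9) ^ l := by
    refine Maj_sum_choose l (fun j => ¬ l < j) (fun j => t ^ j * (1 - t) ^ (2 * l - j)) (fun j hj => ?_)
    rw [Finset.mem_filter, Finset.mem_range] at hj
    have h3 := Maj_term l (2 * l - j) (by omega) (by omega) h2 (b := t) (by linarith) (by nlinarith)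
    have e1 : 2 * l - (2 * l - j) = j := by omega
    rw [e1, mul_comm] at h3
    exact h3
  have hm : maj l t = ∑ j ∈ (range (2 * l + 1)).filter (fun j => l < j),
      ((2 * l).choose j : ℝ) * (t ^ j * (1 - t) ^ (2 * l - j)) := rfl
  rw [hm]
  constructor <;> linarith

theorem Maj_zero {X Y : Type} : G2 (fun (_ : X) (_ : Y) => (0 : ℂ)) 0 := by
  refine ⟨Empty, inferInstance, fun _ _ => 0, fun _ _ => 0, ?_, ?_, ?_⟩ <;> simp

/-- Natural multiples. -/
theorem G2.nsmul {X Y : Type} {A : X → Y → ℂ} {g : ℝ} (hA : G2 A g) (m : ℕ) :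
    G2 (fun x y => (m : ℂ) * A x y) (m * g) := by
  induction m with
  | zero =>
    have e : (fun x y => ((0 : ℕ) : ℂ) * A x y) = fun (_ : X) (_ : Y) => (0 : ℂ) := by
      funext x y
      simp
    rw [e, Nat.cast_zero, zero_mul]
    exact Maj_zero
  | succ m ih =>
    have e : (fun x y => ((m + 1 : ℕ) : ℂ) * A x y) = fun x y => (m : ℂ) * A x y + A x y := by
      funext x y
      push_cast
      ring
    have e2 : ((m + 1 : ℕ) : ℝ) * g = m * g + g := by
      push_cast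
      ring
    rw [e, e2]
    exact ih.add hA

/-- Powers. -/
theorem G2.pow {X Y : Type} {A : X → Y → ℂ} {g : ℝ} (hA : G2 A g) (m : ℕ) :
    G2 (fun x y => A x y ^ m) (g ^ m) := by
  induction m with
  | zero =>
    simp only [pow_zero]
    exact G2.one
  | succ m ih =>
    simp only [pow_succ]
    exact ih.mul hA

/-- Finite sums (the empty sum has norm `0`, index type `Empty` or `Fin 0`). -/
theorem G2.sum {X Y C : Type} (s : Finset C) {A : C → X → Y → ℂ} {g : C → ℝ} (hA : ∀ c ∈ s, G2 (A c) (g c)) :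
    G2 (fun x y => ∑ c ∈ s, A c x y) (∑ c ∈ s, g c) := by
  classical
  induction s using Finset.induction_on with
  | empty =>
    simp only [Finset.sum_empty]
    exact Maj_zero
  | insert a s ha ih =>
    simp only [Finset.sum_insert ha]
    exact (hA a (Finset.mem_insert_self a s)).add (ih fun i hi => hA i (Finset.mem_insert_of_mem hi))

/-- `γ₂(maj l P) ≤ (3 g)^(2 l)` for `g ≥ 1`: `1 - P` has norm at most `1 + g`, so the norm is at most
`∑ j, C(2l, j) g^j (1+g)^(2l-j) = (1 + 2 g)^(2l) ≤ (3 g)^(2l)`. -/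
theorem maj_G2 {X Y : Type} {P : X → Y → ℝ} {g : ℝ} (hg : 1 ≤ g) (h : G2 (fun x y => (P x y : ℂ)) g) (l : ℕ) :
    G2 (fun x y => ((maj l (P x y) : ℝ) : ℂ)) ((3 * g) ^ (2 * l)) := by
  have h1P : G2 (fun x y => 1 - (P x y : ℂ)) (1 + g) := by
    have e : (fun x y => 1 - (P x y : ℂ)) = fun x y => (fun (_ : X) (_ : Y) => (1 : ℂ)) x y + (-1) * (P x y : ℂ) := by
      funext x y
      ring
    rw [e]
    exact G2.one.add (h.smul (-1) (by simp))
  have hj : ∀ j ∈ (range (2 * l + 1)).filter (fun j => l < j),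
      G2 (fun x y => ((2 * l).choose j : ℂ) * ((P x y : ℂ) ^ j * (1 - (P x y : ℂ)) ^ (2 * l - j)))
        (((2 * l).choose j : ℝ) * (g ^ j * (1 + g) ^ (2 * l - j))) := fun j _ =>
    ((h.pow j).mul (h1P.pow (2 * l - j))).nsmul _
  have hs := G2.sum _ hj
  have e : (fun x y => ((maj l (P x y) : ℝ) : ℂ)) = fun x y => ∑ j ∈ (range (2 * l + 1)).filter (fun j => l < j),
      ((2 * l).choose j : ℂ) * ((P x y : ℂ) ^ j * (1 - (P x y : ℂ)) ^ (2 * l - j)) := by
    funext x y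
    unfold maj
    push_cast
    rfl
  rw [e]
  refine hs.mono ?_
  have hg0 : 0 ≤ g := by linarith
  calc ∑ j ∈ (range (2 * l + 1)).filter (fun j => l < j), ((2 * l).choose j : ℝ) * (g ^ j * (1 + g) ^ (2 * l - j))
      ≤ ∑ j ∈ range (2 * l + 1), ((2 * l).choose j : ℝ) * (g ^ j * (1 + g) ^ (2 * l - j)) :=
        Finset.sum_le_sum_of_subset_of_nonneg (Finset.filter_subset _ _) fun j _ _ => by positivity
    _ = (g + (1 + g)) ^ (2 * l) := by
        rw [add_pow]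
        refine Finset.sum_congr rfl fun j _ => ?_
        ring
    _ ≤ (3 * g) ^ (2 * l) := pow_le_pow_left₀ (by linarith) (by linarith) _

/-- Summary with `g = 4^q` and `l = 6 (k+1)`: `(8/9)^6 ≤ 1/2`, so the error is at most `2^(-(k+1))`, and
`(3 · 4^q)^(12 (k+1)) ≤ 2^(24 (k+1)(q+1))`. -/
theorem amp_maj {X Y : Type} {F : X → Y → Bool} {P : X → Y → ℝ} {q : ℕ}
    (h : G2 (fun x y => (P x y : ℂ)) ((4 : ℝ) ^ q)) (h01 : ∀ x y, 0 ≤ P x y ∧ P x y ≤ 1)
    (h1 : ∀ x y, F x y = true → 2 / 3 ≤ P x y) (h0 : ∀ x y, F x y = false → P x y ≤ 1 / 3) (k : ℕ) :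
    ∃ Q : X → Y → ℝ, G2 (fun x y => (Q x y : ℂ)) ((2 : ℝ) ^ (24 * (k + 1) * (q + 1))) ∧
      ∀ x y, |Q x y - (if F x y then 1 else 0)| ≤ (1 / 2) ^ (k + 1) := by
  have hg : (1 : ℝ) ≤ 4 ^ q := one_le_pow₀ (by norm_num)
  have hb : ((8 : ℝ) / 9) ^ (6 * (k + 1)) ≤ (1 / 2) ^ (k + 1) := by
    rw [pow_mul]
    exact pow_le_pow_left₀ (by positivity) (by norm_num) _
  refine ⟨fun x y => maj (6 * (k + 1)) (P x y), (maj_G2 hg h _).mono ?_, fun x y => ?_⟩
  · calc (3 * (4 : ℝ) ^ q) ^ (2 * (6 * (k + 1))) ≤ (4 * (4 : ℝ) ^ q) ^ (2 * (6 * (k + 1))) :=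
          pow_le_pow_left₀ (by positivity) (by nlinarith) _
      _ = (2 : ℝ) ^ (24 * (k + 1) * (q + 1)) := by
          have e4 : (4 : ℝ) = 2 ^ 2 := by norm_num
          rw [← pow_succ', ← pow_mul, e4, ← pow_mul]
          congr 1
          ring
  · obtain ⟨hP0, hP1⟩ := h01 x y
    cases hF : F x y
    · obtain ⟨a1, a2⟩ := maj_small (6 * (k + 1)) hP0 (h0 x y hF)
      simp only [Bool.false_eq_true, if_false, sub_zero]
      rw [abs_of_nonneg a1]
      exact a2.trans hb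
    · obtain ⟨a1, a2⟩ := maj_large (6 * (k + 1)) (h1 x y hF) hP1
      simp only [if_true]
      rw [abs_le]
      constructor <;> linarith [pow_nonneg (show (0 : ℝ) ≤ 1 / 2 by norm_num) (k + 1)]

end Pool.Agent.H.MP_dd1c2e_lc
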