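import Mathlib
import Pool.Agent.H.MP_dd1c2e_lc.Defs

/-!
# Parity decision trees
-/

namespace Pool.Agent.H.MP_dd1c2e_lc

open Finset Module

/-- A parity decision tree on `n` bits: every inner vertex queries the parity of the bits in a set `S`. -/
inductive PDT (n : ℕ) : Type
  | leaf (b : Bool) : PDT n
  | query (S : Finset (Fin n)) (P Q : PDT n) : PDT n

/-- The output on the input `y`. At a query the computation goes on with `P` if an odd number of the bits `y i`, `i ∈ S`, is
one, and with `Q` otherwise. -/
def PDT.eval {n : ℕ} : PDT n → (Fin n → Bool) → Bool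
  | .leaf b, _ => b
  | .query S P Q, y => if Odd (S.filter (fun i => y i = true)).card then P.eval y else Q.eval y

/-- The largest number of queries on a path. -/
def PDT.depth {n : ℕ} : PDT n → ℕ
  | .leaf _ => 0
  | .query _ P Q => max P.depth Q.depth + 1

/-- The scalar product over the field with two elements. -/
def dot {n : ℕ} (α z : Fin n → ZMod 2) : ZMod 2 := ∑ i, α i * z i

theorem dot_add_left {n : ℕ} (α β z : Fin n → ZMod 2) : dot (α + β) z = dot α z + dot β z := by
  simp only [dot, Pi.add_apply, add_mul, Finset.sum_add_distrib]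

theorem dot_add_right {n : ℕ} (α z z' : Fin n → ZMod 2) : dot α (z + z') = dot α z + dot α z' := by
  simp only [dot, Pi.add_apply, mul_add, Finset.sum_add_distrib]

theorem dot_zero_left {n : ℕ} (z : Fin n → ZMod 2) : dot 0 z = 0 := by
  simp only [dot, Pi.zero_apply, zero_mul, Finset.sum_const_zero]

theorem dot_smul_left {n : ℕ} (c : ZMod 2) (α z : Fin n → ZMod 2) : dot (c • α) z = c * dot α z := by
  simp only [dot, Pi.smul_apply, smul_eq_mul, mul_assoc, Finset.mul_sum]

/-- The Boolean vector as a vector over the field with two elements. -/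
def toV {n : ℕ} (y : Fin n → Bool) : Fin n → ZMod 2 := fun i => if y i then 1 else 0

/-- The inverse map. -/
def ofV {n : ℕ} (z : Fin n → ZMod 2) : Fin n → Bool := fun i => decide (z i = 1)

theorem ofV_toV {n : ℕ} (y : Fin n → Bool) : ofV (toV y) = y := by
  funext i
  unfold ofV toV
  cases y i <;> decide

theorem toV_ofV {n : ℕ} (z : Fin n → ZMod 2) : toV (ofV z) = z := by
  funext i
  unfold ofV toV
  have h : ∀ a : ZMod 2, (if decide (a = 1) = true then (1 : ZMod 2) else 0) = a := by decide
  exact h (z i)

/-- The indicator vector of a set. -/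
def indV {n : ℕ} (S : Finset (Fin n)) : Fin n → ZMod 2 := fun i => if i ∈ S then 1 else 0

/-- The parity of `y` on `S` is the scalar product with the indicator vector. -/
theorem odd_iff_dot {n : ℕ} (S : Finset (Fin n)) (z : Fin n → ZMod 2) :
    Odd (S.filter (fun i => ofV z i = true)).card ↔ dot (indV S) z = 1 := by
  have h1 : dot (indV S) z = (((S.filter (fun i => ofV z i = true)).card : ℕ) : ZMod 2) := by
    have hz : ∀ a : ZMod 2, a = if decide (a = 1) = true then (1 : ZMod 2) else 0 := by decide
    have e1 : dot (indV S) z = ∑ i ∈ S, z i := by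
      unfold dot indV
      simp only [ite_mul, one_mul, zero_mul]
      rw [Finset.sum_ite_mem, Finset.univ_inter]
    rw [e1, Finset.card_filter, Nat.cast_sum]
    refine Finset.sum_congr rfl fun i _ => ?_
    have h2 : ofV z i = decide (z i = 1) := rfl
    rw [h2]
    have h3 := hz (z i)
    by_cases h : z i = 1
    · rw [h]
      decide
    · have h0 : z i = 0 := by
        rw [h3, if_neg (by simpa using h)]
      rw [h0]
      decide
  rw [h1]
  exact ZMod.natCast_eq_one_iff_odd.symm

/-- `z` and `z0` agree on all parities in `W`. -/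
def Agree {n : ℕ} (W : Submodule (ZMod 2) (Fin n → ZMod 2)) (z z0 : Fin n → ZMod 2) : Prop := ∀ α ∈ W, dot α z = dot α z0

/-- Certificates: a parity decision tree of depth `≤ k` is constant on the set of the points that agree with `z0` on the
queries on the path of `z0`, which span a space of dimension at most `k`. Induction over the tree. -/
theorem PDT.cert {n : ℕ} (P : PDT n) (z0 : Fin n → ZMod 2) :
    ∃ W : Submodule (ZMod 2) (Fin n → ZMod 2), finrank (ZMod 2) W ≤ P.depth ∧
      ∀ z, Agree W z z0 → P.eval (ofV z) = P.eval (ofV z0) := by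
  induction P with
  | leaf b =>
    refine ⟨⊥, ?_, fun z _ => rfl⟩
    rw [finrank_bot]
    exact Nat.zero_le _
  | query S P Q ihP ihQ =>
    have hfin : ∀ (W : Submodule (ZMod 2) (Fin n → ZMod 2)) (d : ℕ), finrank (ZMod 2) W ≤ d →
        finrank (ZMod 2) (W ⊔ Submodule.span (ZMod 2) {indV S} : Submodule (ZMod 2) (Fin n → ZMod 2)) ≤ d + 1 := by
      intro W d hW
      refine (Submodule.finrank_add_le_finrank_add_finrank W _).trans (Nat.add_le_add hW ?_)
      have := finrank_span_le_card (R := ZMod 2) ({indV S} : Set (Fin n → ZMod 2))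
      simpa using this
    have hag : ∀ (W : Submodule (ZMod 2) (Fin n → ZMod 2)) (z : Fin n → ZMod 2),
        Agree (W ⊔ Submodule.span (ZMod 2) {indV S}) z z0 → Agree W z z0 ∧
          (Odd (S.filter (fun i => ofV z i = true)).card ↔ Odd (S.filter (fun i => ofV z0 i = true)).card) := by
      intro W z h
      refine ⟨fun α hα => h α (Submodule.mem_sup_left hα), ?_⟩
      rw [odd_iff_dot, odd_iff_dot, h (indV S) (Submodule.mem_sup_right (Submodule.mem_span_singleton_self _))]
    by_cases ho : Odd (S.filter (fun i => ofV z0 i = true)).card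
    · obtain ⟨W, hW, hP⟩ := ihP
      refine ⟨W ⊔ Submodule.span (ZMod 2) {indV S}, (hfin W _ hW).trans
        (Nat.add_le_add_right (le_max_left _ _) 1), fun z hz => ?_⟩
      obtain ⟨h1, h2⟩ := hag W z hz
      unfold PDT.eval
      rw [if_pos ho, if_pos (h2.mpr ho)]
      exact hP z h1
    · obtain ⟨W, hW, hQ⟩ := ihQ
      refine ⟨W ⊔ Submodule.span (ZMod 2) {indV S}, (hfin W _ hW).trans
        (Nat.add_le_add_right (le_max_right _ _) 1), fun z hz => ?_⟩
      obtain ⟨h1, h2⟩ := hag W z hz
      unfold PDT.eval
      rw [if_neg ho, if_neg (fun h => ho (h2.mp h))]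
      exact hQ z h1

end Pool.Agent.H.MP_dd1c2e_lc
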