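import Mathlib
import Pool.Agent.H.MP_dd1c2e_lc.pdt.Tree
import Pool.Agent.H.MP_dd1c2e_lc.G2

/-!
# Fourier analysis on the cube
-/

namespace Pool.Agent.H.MP_dd1c2e_lc

open Finset Module

/-- The character `z ↦ (-1)^(T·z)`. -/
def chi {n : ℕ} (T z : Fin n → ZMod 2) : ℝ := if dot T z = 0 then 1 else -1

theorem Four_sgn (a b : ZMod 2) : (if a + b = 0 then (1 : ℝ) else -1) =
    (if a = 0 then (1 : ℝ) else -1) * (if b = 0 then (1 : ℝ) else -1) := by
  have h : ∀ a : ZMod 2, a = 0 ∨ a = 1 := by decide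
  have h10 : (1 : ZMod 2) ≠ 0 := by decide
  have h11 : (1 : ZMod 2) + 1 = 0 := by decide
  rcases h a with rfl | rfl <;> rcases h b with rfl | rfl
  · simp
  · simp [h10]
  · simp [h10]
  · rw [h11]
    simp [h10]

theorem Four_dot_comm {n : ℕ} (α z : Fin n → ZMod 2) : dot α z = dot z α := by
  unfold dot
  exact Finset.sum_congr rfl fun i _ => mul_comm _ _

theorem chi_add_left {n : ℕ} (T T' z : Fin n → ZMod 2) : chi (T + T') z = chi T z * chi T' z := by
  unfold chi
  rw [dot_add_left]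
  generalize dot T z = a
  generalize dot T' z = b
  exact Four_sgn a b

theorem chi_add_right {n : ℕ} (T z z' : Fin n → ZMod 2) : chi T (z + z') = chi T z * chi T z' := by
  unfold chi
  rw [dot_add_right]
  exact Four_sgn _ _

theorem chi_symm {n : ℕ} (T z : Fin n → ZMod 2) : chi T z = chi z T := by
  unfold chi
  rw [Four_dot_comm]

/-- `∑ z, chi T z = 2^n` if `T = 0` and `0` otherwise (toggle a coordinate with `T i = 1`). -/
theorem sum_chi {n : ℕ} (T : Fin n → ZMod 2) : ∑ z, chi T z = if T = 0 then (2 : ℝ) ^ n else 0 := by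
  split_ifs with hT
  · subst hT
    have : ∀ z : Fin n → ZMod 2, chi 0 z = 1 := fun z => by
      unfold chi
      rw [dot_zero_left, if_pos rfl]
    rw [Finset.sum_congr rfl fun z _ => this z, Finset.sum_const, Finset.card_univ, nsmul_eq_mul, mul_one]
    simp
  · obtain ⟨i, hi⟩ : ∃ i, T i ≠ 0 := by
      by_contra hc
      push Not at hc
      exact hT (funext hc)
    have hi1 : T i = 1 := by
      have h : ∀ a : ZMod 2, a ≠ 0 → a = 1 := by decide
      exact h _ hi
    have h1 : ∑ z, chi T (z + Pi.single i 1) = ∑ z, chi T z :=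
      Fintype.sum_equiv (Equiv.addRight (Pi.single i 1 : Fin n → ZMod 2)) _ _ (fun z => by simp)
    have h2 : chi T (Pi.single i 1) = -1 := by
      have h3 : dot T (Pi.single i 1) = 1 := by
        unfold dot
        rw [Finset.sum_eq_single i]
        · rw [hi1, Pi.single_eq_same, one_mul]
        · intro j _ hj
          rw [Pi.single_eq_of_ne hj, mul_zero]
        · intro h
          exact absurd (Finset.mem_univ i) h
      unfold chi
      rw [h3]
      have h10 : (1 : ZMod 2) ≠ 0 := by decide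
      rw [if_neg h10]
    have h3 : ∑ z : Fin n → ZMod 2, chi T (z + Pi.single i 1) = -∑ z : Fin n → ZMod 2, chi T z := by
      rw [← Finset.sum_neg_distrib]
      refine Finset.sum_congr rfl fun z _ => ?_
      rw [chi_add_right, h2]
      ring
    linarith

/-- The Fourier coefficient. -/
noncomputable def hat {n : ℕ} (f : (Fin n → ZMod 2) → ℝ) (T : Fin n → ZMod 2) : ℝ := (∑ z, f z * chi T z) / 2 ^ n

theorem Four_add_eq_zero {n : ℕ} (w z : Fin n → ZMod 2) : w + z = 0 ↔ w = z := by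
  have h : ∀ a b : ZMod 2, a + b = 0 ↔ a = b := by decide
  constructor
  · intro hh
    funext i
    exact (h _ _).mp (congrFun hh i)
  · intro hh
    funext i
    exact (h _ _).mpr (congrFun hh i)

theorem fourier_inversion {n : ℕ} (f : (Fin n → ZMod 2) → ℝ) (z : Fin n → ZMod 2) : f z = ∑ T, hat f T * chi T z := by
  have h1 : ∀ T, hat f T * chi T z = ∑ w, f w * chi T (w + z) / 2 ^ n := by
    intro T
    unfold hat
    rw [div_mul_eq_mul_div, Finset.sum_mul, Finset.sum_div]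
    refine Finset.sum_congr rfl fun w _ => ?_
    rw [chi_add_right]
    ring
  have h0 : ∑ T, hat f T * chi T z = ∑ T, ∑ w, f w * chi T (w + z) / 2 ^ n :=
    Finset.sum_congr rfl fun T _ => h1 T
  rw [h0, Finset.sum_comm]
  have h2 : ∀ w, ∑ T, f w * chi T (w + z) / 2 ^ n = if w = z then f w else 0 := by
    intro w
    have e : ∀ T, f w * chi T (w + z) / 2 ^ n = (f w / 2 ^ n) * chi (w + z) T := by
      intro T
      rw [chi_symm]
      ring
    rw [Finset.sum_congr rfl fun T _ => e T, ← Finset.mul_sum, sum_chi]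
    have h3 : w + z = 0 ↔ w = z := Four_add_eq_zero w z
    by_cases h : w = z
    · rw [if_pos (h3.mpr h), if_pos h]
      field_simp
    · rw [if_neg (fun hh => h (h3.mp hh)), if_neg h, mul_zero]
  have h3 : ∑ w, ∑ T, f w * chi T (w + z) / 2 ^ n = ∑ w, if w = z then f w else 0 :=
    Finset.sum_congr rfl fun w _ => h2 w
  rw [h3, Finset.sum_ite_eq']
  simp

/-- The same as a sum over a set that contains the support. -/
theorem fourier_support {n : ℕ} (f : (Fin n → ZMod 2) → ℝ) (𝒯 : Finset (Fin n → ZMod 2))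
    (h : ∀ T, hat f T ≠ 0 → T ∈ 𝒯) (z : Fin n → ZMod 2) : f z = ∑ T ∈ 𝒯, hat f T * chi T z := by
  rw [fourier_inversion f z]
  symm
  refine Finset.sum_subset (Finset.subset_univ _) (fun T _ hT => ?_)
  have : hat f T = 0 := by
    by_contra hc
    exact hT (h T hc)
  rw [this, zero_mul]

/-- Granularity: the Fourier coefficients of a function computed by a parity decision tree of depth `k` are integral
multiples of `2^(-k)`. Induction over the tree: if `f = g` where `α·z = 1` and `f = h` where `α·z = 0`, then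
`f z = (g z (1 - chi α z) + h z (1 + chi α z)) / 2`, so `hat f T = (hat g T - hat g (T + α) + hat h T + hat h (T + α)) / 2`. -/
theorem PDT.granular {n : ℕ} (P : PDT n) (k : ℕ) (hk : P.depth ≤ k) (T : Fin n → ZMod 2) :
    ∃ m : ℤ, hat (fun z => if P.eval (ofV z) then (1 : ℝ) else 0) T * 2 ^ k = m := by
  induction P generalizing k T with
  | leaf b =>
    have h1 : ∀ z, (if (PDT.leaf b : PDT n).eval (ofV z) then (1 : ℝ) else 0) * chi T z =
        (if b then (1 : ℝ) else 0) * chi T z := fun z => rfl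
    unfold hat
    rw [Finset.sum_congr rfl fun z _ => h1 z, ← Finset.mul_sum, sum_chi]
    by_cases hT : T = 0
    · cases b
      · exact ⟨0, by simp⟩
      · refine ⟨2 ^ k, ?_⟩
        rw [if_pos hT]
        push_cast
        simp
    · exact ⟨0, by rw [if_neg hT]; simp⟩
  | query S P Q ihP ihQ =>
    obtain ⟨k', rfl⟩ : ∃ k', k = k' + 1 := by
      refine ⟨k - 1, ?_⟩
      have : max P.depth Q.depth + 1 ≤ k := hk
      omega
    have hk' : max P.depth Q.depth + 1 ≤ k' + 1 := hk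
    have hP : P.depth ≤ k' := (le_max_left _ _).trans (Nat.le_of_succ_le_succ hk')
    have hQ : Q.depth ≤ k' := (le_max_right _ _).trans (Nat.le_of_succ_le_succ hk')
    set α := indV S with hα
    set g : (Fin n → ZMod 2) → ℝ := fun z => if P.eval (ofV z) then (1 : ℝ) else 0 with hg
    set h : (Fin n → ZMod 2) → ℝ := fun z => if Q.eval (ofV z) then (1 : ℝ) else 0 with hh
    have key : ∀ z, (if (PDT.query S P Q).eval (ofV z) then (1 : ℝ) else 0) * chi T z =
        (g z * chi T z - g z * chi (T + α) z + h z * chi T z + h z * chi (T + α) z) / 2 := by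
      intro z
      have e0 : (PDT.query S P Q).eval (ofV z) =
        if Odd (S.filter (fun i => ofV z i = true)).card then P.eval (ofV z) else Q.eval (ofV z) := rfl
      rw [chi_add_left, e0]
      by_cases ho : Odd (S.filter (fun i => ofV z i = true)).card
      · have h1 : dot α z = 1 := (odd_iff_dot S z).mp ho
        have h2 : chi α z = -1 := by
          unfold chi
          rw [h1]
          have h10 : (1 : ZMod 2) ≠ 0 := by decide
          rw [if_neg h10]
        rw [if_pos ho, h2]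
        simp only [hg, hh]
        ring
      · have h1 : dot α z = 0 := by
          have h3 : ∀ a : ZMod 2, a ≠ 1 → a = 0 := by decide
          exact h3 _ (fun hc => ho ((odd_iff_dot S z).mpr hc))
        have h2 : chi α z = 1 := by
          unfold chi
          rw [h1, if_pos rfl]
        rw [if_neg ho, h2]
        simp only [hg, hh]
        ring
    have hhat : hat (fun z => if (PDT.query S P Q).eval (ofV z) then (1 : ℝ) else 0) T =
        (hat g T - hat g (T + α) + hat h T + hat h (T + α)) / 2 := by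
      unfold hat
      rw [Finset.sum_congr rfl fun z _ => key z, ← Finset.sum_div, Finset.sum_add_distrib,
        Finset.sum_add_distrib, Finset.sum_sub_distrib]
      ring
    obtain ⟨m1, h1⟩ := ihP k' hP T
    obtain ⟨m2, h2⟩ := ihP k' hP (T + α)
    obtain ⟨m3, h3⟩ := ihQ k' hQ T
    obtain ⟨m4, h4⟩ := ihQ k' hQ (T + α)
    refine ⟨m1 - m2 + m3 + m4, ?_⟩
    rw [hhat]
    push_cast
    rw [← h1, ← h2, ← h3, ← h4]
    ring

/-- Bessel's inequality for complex functions: `∑_{T ∈ 𝒯} ‖∑ z, w z chi T z‖² ≤ 2^n ∑ z ‖w z‖²` (in fact the sum over all `T`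
is equal to the right side; expand and use `sum_chi`). -/
theorem bessel_chi {n : ℕ} (w : (Fin n → ZMod 2) → ℂ) (𝒯 : Finset (Fin n → ZMod 2)) :
    ∑ T ∈ 𝒯, ‖∑ z, w z * (chi T z : ℂ)‖ ^ 2 ≤ 2 ^ n * ∑ z, ‖w z‖ ^ 2 := by
  have hall : ∑ T, ‖∑ z, w z * (chi T z : ℂ)‖ ^ 2 = 2 ^ n * ∑ z, ‖w z‖ ^ 2 := by
    have hC : ((∑ T, ‖∑ z, w z * (chi T z : ℂ)‖ ^ 2 : ℝ) : ℂ) = ((2 ^ n * ∑ z, ‖w z‖ ^ 2 : ℝ) : ℂ) := by
      push_cast
      have hn : ∀ z : ℂ, ((‖z‖ : ℂ)) ^ 2 = z * starRingEnd ℂ z := fun z => (Complex.mul_conj' z).symm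
      simp only [hn]
      have h1 : ∀ T, (∑ z, w z * (chi T z : ℂ)) * starRingEnd ℂ (∑ z, w z * (chi T z : ℂ)) =
          ∑ z, ∑ z', (w z * starRingEnd ℂ (w z')) * (chi (z + z') T : ℂ) := by
        intro T
        rw [map_sum, Finset.sum_mul_sum]
        refine Finset.sum_congr rfl fun z _ => Finset.sum_congr rfl fun z' _ => ?_
        rw [map_mul, Complex.conj_ofReal, chi_add_left, chi_symm z T, chi_symm z' T]
        push_cast
        ring
      rw [Finset.sum_congr rfl fun T _ => h1 T, Finset.sum_comm, Finset.mul_sum]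
      refine Finset.sum_congr rfl fun z _ => ?_
      rw [Finset.sum_comm]
      have h2 : ∀ z', ∑ T, (w z * starRingEnd ℂ (w z')) * (chi (z + z') T : ℂ) =
          if z = z' then (w z * starRingEnd ℂ (w z')) * 2 ^ n else 0 := by
        intro z'
        rw [← Finset.mul_sum, ← Complex.ofReal_sum, sum_chi]
        by_cases h : z = z'
        · rw [if_pos ((Four_add_eq_zero z z').mpr h), if_pos h]
          push_cast
          ring
        · rw [if_neg (fun hh => h ((Four_add_eq_zero z z').mp hh)), if_neg h]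
          simp
      rw [Finset.sum_congr rfl fun z' _ => h2 z', Finset.sum_ite_eq]
      simp only [Finset.mem_univ, if_true]
      ring
    exact_mod_cast hC
  rw [← hall]
  exact Finset.sum_le_sum_of_subset_of_nonneg (Finset.subset_univ _) fun _ _ _ => sq_nonneg _

/-- Few characters have a large coefficient in some row. Let `A` be a matrix with `γ₂(A) ≤ s` that approximates the real
matrix `f` within `δ/2`, and let every `T ∈ 𝒯` have `|hat (f x) T| ≥ δ` for some row `x`. Then `|𝒯| ≤ 4 s² / δ²`.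

Proof. Choose `x T`. With `A x z = ∑ l, u x l * w z l`: the coefficient `a T = 2^(-n) ∑ z, A (x T) z * chi T z` has
`‖a T‖ ≥ δ - δ/2 = δ/2`, and `‖a T‖ = ‖∑ l, u (x T) l * ŵ T l‖ ≤ s^(1/2) (∑ l ‖ŵ T l‖²)^(1/2)` with
`ŵ T l = 2^(-n) ∑ z, w z l * chi T z`. By Cauchy-Schwarz and `bessel_chi`
`|𝒯| δ/2 ≤ ∑_T ‖a T‖ ≤ s^(1/2) (|𝒯| ∑_T ∑ l ‖ŵ T l‖²)^(1/2) ≤ s^(1/2) (|𝒯| 2^(-n) ∑ z ∑ l ‖w z l‖²)^(1/2) ≤ s |𝒯|^(1/2)`. -/
theorem count_support {X : Type} {n : ℕ} (f : X → (Fin n → ZMod 2) → ℝ) (A : X → (Fin n → ZMod 2) → ℂ) (s δ : ℝ)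
    (hδ : 0 < δ) (hA : G2 A s) (happ : ∀ x z, ‖A x z - (f x z : ℂ)‖ ≤ δ / 2) (𝒯 : Finset (Fin n → ZMod 2))
    (h : ∀ T ∈ 𝒯, ∃ x, δ ≤ |hat (f x) T|) : (𝒯.card : ℝ) ≤ 4 * s ^ 2 / δ ^ 2 := by
  classical
  obtain ⟨ι, hι, u, w, h1, h2, h3⟩ := hA
  have hs0 : 0 ≤ s := (Finset.sum_nonneg fun _ _ => sq_nonneg _).trans (h3 0)
  rcases 𝒯.eq_empty_or_nonempty with h𝒯 | h𝒯
  · rw [h𝒯, Finset.card_empty, Nat.cast_zero]
    positivity
  obtain ⟨T0, hT0⟩ := h𝒯
  have : Nonempty X := ⟨(h T0 hT0).choose⟩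
  choose! x hx using h
  have hN0 : 0 < (𝒯.card : ℝ) := by
    have := Finset.card_pos.mpr ⟨T0, hT0⟩
    exact_mod_cast this
  set q : ℝ := 2 ^ n with hq
  have hq0 : 0 < q := by positivity
  set B : (Fin n → ZMod 2) → ι → ℂ := fun T l => ∑ z, w z l * (chi T z : ℂ) with hB
  have hchi : ∀ T z : Fin n → ZMod 2, |chi T z| = 1 := by
    intro T z
    unfold chi
    split_ifs <;> simp
  have a1 : ∀ T ∈ 𝒯, q * δ / 2 ≤ ∑ l, ‖u (x T) l‖ * ‖B T l‖ := by
    intro T hT
    have e1 : ∑ z, A (x T) z * (chi T z : ℂ) = ∑ l, u (x T) l * B T l := by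
      simp only [hB, Finset.mul_sum]
      rw [Finset.sum_comm]
      refine Finset.sum_congr rfl fun z _ => ?_
      rw [h1, Finset.sum_mul]
      refine Finset.sum_congr rfl fun l _ => ?_
      ring
    have e2 : ‖∑ l, u (x T) l * B T l‖ ≤ ∑ l, ‖u (x T) l‖ * ‖B T l‖ := by
      refine (norm_sum_le _ _).trans (le_of_eq ?_)
      refine Finset.sum_congr rfl fun l _ => ?_
      rw [norm_mul]
    have e3 : ‖∑ z, (A (x T) z - (f (x T) z : ℂ)) * (chi T z : ℂ)‖ ≤ q * (δ / 2) := by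
      refine (norm_sum_le _ _).trans ?_
      have : ∀ z ∈ (Finset.univ : Finset (Fin n → ZMod 2)),
          ‖(A (x T) z - (f (x T) z : ℂ)) * (chi T z : ℂ)‖ ≤ δ / 2 := by
        intro z _
        rw [norm_mul, Complex.norm_real, Real.norm_eq_abs, hchi, mul_one]
        exact happ _ _
      refine (Finset.sum_le_card_nsmul _ _ _ this).trans (le_of_eq ?_)
      rw [nsmul_eq_mul, Finset.card_univ, hq]
      simp
    have e4 : q * δ ≤ ‖∑ z, (f (x T) z : ℂ) * (chi T z : ℂ)‖ := by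
      have e5 : ∑ z, (f (x T) z : ℂ) * (chi T z : ℂ) = ((∑ z, f (x T) z * chi T z : ℝ) : ℂ) := by
        push_cast
        rfl
      rw [e5, Complex.norm_real, Real.norm_eq_abs]
      have e6 := hx T hT
      unfold hat at e6
      rw [abs_div, le_div_iff₀ (by positivity)] at e6
      have e7 : |(2 : ℝ) ^ n| = q := by
        rw [hq]
        exact abs_of_pos (by positivity)
      rw [e7] at e6
      linarith
    have e8 : ∑ z, (f (x T) z : ℂ) * (chi T z : ℂ) = ∑ z, A (x T) z * (chi T z : ℂ) -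
        ∑ z, (A (x T) z - (f (x T) z : ℂ)) * (chi T z : ℂ) := by
      rw [← Finset.sum_sub_distrib]
      refine Finset.sum_congr rfl fun z _ => ?_
      ring
    have e9 : ‖∑ z, (f (x T) z : ℂ) * (chi T z : ℂ)‖ ≤ ‖∑ z, A (x T) z * (chi T z : ℂ)‖ +
        ‖∑ z, (A (x T) z - (f (x T) z : ℂ)) * (chi T z : ℂ)‖ := by
      rw [e8]
      exact norm_sub_le _ _
    rw [e1] at e9
    linarith
  have a2 : (𝒯.card : ℝ) * (q * δ / 2) ≤ ∑ p ∈ 𝒯 ×ˢ (Finset.univ : Finset ι), ‖u (x p.1) p.2‖ * ‖B p.1 p.2‖ := by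
    rw [Finset.sum_product, ← nsmul_eq_mul]
    exact Finset.card_nsmul_le_sum _ _ _ a1
  have a3 : (∑ p ∈ 𝒯 ×ˢ (Finset.univ : Finset ι), ‖u (x p.1) p.2‖ * ‖B p.1 p.2‖) ^ 2 ≤
      (∑ p ∈ 𝒯 ×ˢ (Finset.univ : Finset ι), ‖u (x p.1) p.2‖ ^ 2) *
        ∑ p ∈ 𝒯 ×ˢ (Finset.univ : Finset ι), ‖B p.1 p.2‖ ^ 2 :=
    Finset.sum_mul_sq_le_sq_mul_sq _ _ _
  have a4 : ∑ p ∈ 𝒯 ×ˢ (Finset.univ : Finset ι), ‖u (x p.1) p.2‖ ^ 2 ≤ (𝒯.card : ℝ) * s := by
    rw [Finset.sum_product, ← nsmul_eq_mul]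
    exact Finset.sum_le_card_nsmul _ _ _ (fun T _ => h2 (x T))
  have a5 : ∑ p ∈ 𝒯 ×ˢ (Finset.univ : Finset ι), ‖B p.1 p.2‖ ^ 2 ≤ q * (q * s) := by
    rw [Finset.sum_product_right]
    calc ∑ l, ∑ T ∈ 𝒯, ‖B T l‖ ^ 2 ≤ ∑ l, q * ∑ z, ‖w z l‖ ^ 2 :=
          Finset.sum_le_sum fun l _ => bessel_chi (fun z => w z l) 𝒯
      _ = q * ∑ z, ∑ l, ‖w z l‖ ^ 2 := by
        rw [← Finset.mul_sum, Finset.sum_comm]
      _ ≤ q * (q * s) := by
        refine mul_le_mul_of_nonneg_left ?_ hq0.le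
        calc ∑ z, ∑ l, ‖w z l‖ ^ 2 ≤ ∑ _z : Fin n → ZMod 2, s := Finset.sum_le_sum fun z _ => h3 z
          _ = q * s := by
            rw [Finset.sum_const, Finset.card_univ, nsmul_eq_mul, hq]
            simp
  have a6 : ((𝒯.card : ℝ) * (q * δ / 2)) ^ 2 ≤ ((𝒯.card : ℝ) * s) * (q * (q * s)) := by
    refine (pow_le_pow_left₀ (by positivity) a2 2).trans (a3.trans ?_)
    exact mul_le_mul a4 a5 (Finset.sum_nonneg fun _ _ => sq_nonneg _) (mul_nonneg hN0.le hs0)
  rw [le_div_iff₀ (by positivity)]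
  have hc : 0 < (𝒯.card : ℝ) * q ^ 2 := by positivity
  refine le_of_mul_le_mul_right ?_ hc
  nlinarith [a6]

end Pool.Agent.H.MP_dd1c2e_lc
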