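import Mathlib
import Pool.Agent.H.MP_dd1c2e_lc.pdt.Four

/-!
# Linear algebra over the field with two elements
-/

namespace Pool.Agent.H.MP_dd1c2e_lc

open Finset Module

/-- The scalar product as a linear functional of the first argument. -/
noncomputable def Lin_dotL {n : ℕ} (z : Fin n → ZMod 2) : (Fin n → ZMod 2) →ₗ[ZMod 2] ZMod 2 where
  toFun α := dot α z
  map_add' α β := dot_add_left α β z
  map_smul' c α := dot_smul_left c α z

theorem Lin_functional {n : ℕ} (φ : (Fin n → ZMod 2) →ₗ[ZMod 2] ZMod 2) :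
    ∃ z, ∀ α, dot α z = φ α := by
  refine ⟨fun i => φ (fun j => if i = j then 1 else 0), fun α => ?_⟩
  rw [LinearMap.pi_apply_eq_sum_univ φ α]
  rfl

theorem Lin_ne_zero (a : ZMod 2) (h : a ≠ 0) : a = 1 := by
  revert a
  decide

theorem Lin_add_self {n : ℕ} (a : Fin n → ZMod 2) : a + a = 0 := by
  have h : ∀ a : ZMod 2, a + a = 0 := by decide
  funext i
  exact h (a i)

theorem Lin_chi_sq {n : ℕ} (T z : Fin n → ZMod 2) : chi T z * chi T z = 1 := by
  unfold chi
  split_ifs <;> norm_num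

theorem Lin_chi_eq_one {n : ℕ} {T z : Fin n → ZMod 2} (h : dot T z = 0) : chi T z = 1 := by
  unfold chi
  rw [if_pos h]

/-- Double annihilator: if `β` is not in `W` then some `h` with `α·h = 0` for all `α ∈ W` has `β·h = 1`. -/
theorem exists_sep {n : ℕ} (W : Submodule (ZMod 2) (Fin n → ZMod 2)) (β : Fin n → ZMod 2) (h : β ∉ W) :
    ∃ z, (∀ α ∈ W, dot α z = 0) ∧ dot β z = 1 := by
  obtain ⟨φ, h1, h2⟩ := Submodule.exists_le_ker_of_notMem h
  obtain ⟨z, hz⟩ := Lin_functional φ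
  refine ⟨z, fun α hα => ?_, ?_⟩
  · rw [hz]
    exact LinearMap.mem_ker.1 (h2 hα)
  · rw [hz]
    exact Lin_ne_zero _ h1

/-- Two affine subspaces whose equations are consistent intersect: if `z` and `z1` agree on `W ⊓ W1`, then some `y` agrees
with `z` on `W` and with `z1` on `W1`. (There is a linear functional on `W ⊔ W1` equal to `α ↦ α·z` on `W` and to
`α ↦ α·z1` on `W1`; extend it to the whole space; every functional is `α ↦ α·y`.) -/
theorem exists_inter {n : ℕ} (W W1 : Submodule (ZMod 2) (Fin n → ZMod 2)) (z z1 : Fin n → ZMod 2)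
    (h : Agree (W ⊓ W1) z z1) : ∃ y, Agree W y z ∧ Agree W1 y z1 := by
  set f : (Fin n → ZMod 2) →ₗ.[ZMod 2] ZMod 2 := ⟨W, (Lin_dotL z).comp W.subtype⟩ with hf
  set g : (Fin n → ZMod 2) →ₗ.[ZMod 2] ZMod 2 := ⟨W1, (Lin_dotL z1).comp W1.subtype⟩ with hg
  have hfg : ∀ (x : f.domain) (y : g.domain), (x : Fin n → ZMod 2) = y → f x = g y := by
    intro x y hxy
    have e1 : f x = dot (x : Fin n → ZMod 2) z := rfl
    have e2 : g y = dot (y : Fin n → ZMod 2) z1 := rfl
    rw [e1, e2, ← hxy]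
    refine h _ ⟨x.2, ?_⟩
    rw [hxy]
    exact y.2
  set k := f.sup g hfg with hk
  obtain ⟨φ, hφ⟩ := LinearMap.exists_extend k.toFun
  obtain ⟨y, hy⟩ := Lin_functional φ
  have hval : ∀ x : k.domain, φ (x : Fin n → ZMod 2) = k x := fun x => by
    have := congrArg (fun l => l x) hφ
    exact this
  have hl := LinearPMap.left_le_sup f g hfg
  have hr := LinearPMap.right_le_sup f g hfg
  refine ⟨y, fun α hα => ?_, fun α hα => ?_⟩
  · have hm : α ∈ k.domain := hl.1 hα
    have e := hl.2 (x := ⟨α, hα⟩) (y := ⟨α, hm⟩) rfl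
    rw [hy, hval ⟨α, hm⟩]
    exact e.symm
  · have hm : α ∈ k.domain := hr.1 hα
    have e := hr.2 (x := ⟨α, hα⟩) (y := ⟨α, hm⟩) rfl
    rw [hy, hval ⟨α, hm⟩]
    exact e.symm

/-- Vanishing. Let `f = ∑_{T ∈ 𝒯} c T * chi T` vanish at all points that agree with `z0` on `W0`. If `z` agrees with `z0` on
all sums `T + T' ∈ W0` with `T, T' ∈ 𝒯`, then `f z = 0`.

Proof. For a class `κ` of `𝒯` modulo `W0` let `S κ = ∑_{T ∈ κ} c T * chi T z0`. For `h` with `α·h = 0` on `W0`:
`0 = f (z0 + h) = ∑_κ S κ * chi κ h` (`chi T h` depends only on the class of `T`). Different classes are different characters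
of the annihilator of `W0` (`exists_sep`), so all `S κ = 0` (average over the annihilator against `chi κ`). For `T, T' ∈ κ`
the sum `T + T'` is in `W0`, so `chi T z * chi T' z = chi T z0 * chi T' z0`; hence
`f z = ∑_κ chi T_κ z * chi T_κ z0 * S κ = 0`, `T_κ` a representative. (It may be easier to prove for each `T1 ∈ 𝒯` that
`∑_{T ∈ 𝒯, T + T1 ∈ W0} c T * chi T z0 = 0`.) -/
theorem vanish {n : ℕ} (f : (Fin n → ZMod 2) → ℝ) (𝒯 : Finset (Fin n → ZMod 2)) (c : (Fin n → ZMod 2) → ℝ)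
    (hf : ∀ z, f z = ∑ T ∈ 𝒯, c T * chi T z) (W0 : Submodule (ZMod 2) (Fin n → ZMod 2)) (z0 : Fin n → ZMod 2)
    (h0 : ∀ z, Agree W0 z z0 → f z = 0) (z : Fin n → ZMod 2)
    (hz : ∀ T ∈ 𝒯, ∀ T' ∈ 𝒯, T + T' ∈ W0 → dot (T + T') z = dot (T + T') z0) : f z = 0 := by
  classical
  set H : Finset (Fin n → ZMod 2) := Finset.univ.filter (fun h => ∀ α ∈ W0, dot α h = 0) with hH
  have hHm : ∀ h, h ∈ H ↔ ∀ α ∈ W0, dot α h = 0 := fun h => by simp [hH]
  have hz0 : (0 : Fin n → ZMod 2) ∈ H := by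
    rw [hHm]
    intro α _
    unfold dot
    simp
  have hcard : (H.card : ℝ) ≠ 0 := by
    have := Finset.card_pos.2 ⟨0, hz0⟩
    exact_mod_cast this.ne'
  have hsum : ∀ β, ∑ h ∈ H, chi β h = if β ∈ W0 then (H.card : ℝ) else 0 := by
    intro β
    split_ifs with hβ
    · rw [Finset.sum_congr rfl fun h hh => Lin_chi_eq_one ((hHm h).1 hh β hβ)]
      simp
    · obtain ⟨h0', h1, h2⟩ := exists_sep W0 β hβ
      have hc : chi β h0' = -1 := by
        unfold chi
        rw [h2]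
        have h10 : (1 : ZMod 2) ≠ 0 := by decide
        rw [if_neg h10]
      have hshift : ∑ h ∈ H, chi β (h + h0') = ∑ h ∈ H, chi β h := by
        refine Finset.sum_nbij' (fun h => h + h0') (fun h => h + h0') ?_ ?_ ?_ ?_ ?_
        · intro h hh
          rw [hHm] at hh ⊢
          intro α hα
          rw [dot_add_right, hh α hα, h1 α hα, add_zero]
        · intro h hh
          rw [hHm] at hh ⊢
          intro α hα
          rw [dot_add_right, hh α hα, h1 α hα, add_zero]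
        · intro h _
          rw [add_assoc, Lin_add_self, add_zero]
        · intro h _
          rw [add_assoc, Lin_add_self, add_zero]
        · intro h _
          rfl
      have hneg : ∑ h ∈ H, chi β (h + h0') = -∑ h ∈ H, chi β h := by
        rw [← Finset.sum_neg_distrib]
        refine Finset.sum_congr rfl fun h _ => ?_
        rw [chi_add_right, hc]
        ring
      linarith
  have hclass : ∀ T1, ∑ T ∈ 𝒯.filter (fun T => T + T1 ∈ W0), c T * chi T z0 = 0 := by
    intro T1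
    have h1 : ∑ h ∈ H, f (z0 + h) * chi T1 h = 0 := by
      refine Finset.sum_eq_zero fun h hh => ?_
      rw [h0 (z0 + h) (fun α hα => by rw [dot_add_right, (hHm h).1 hh α hα, add_zero]), zero_mul]
    have h2 : ∑ h ∈ H, f (z0 + h) * chi T1 h =
        ∑ T ∈ 𝒯, (c T * chi T z0) * ∑ h ∈ H, chi (T + T1) h := by
      simp only [hf, Finset.sum_mul, Finset.mul_sum]
      rw [Finset.sum_comm]
      refine Finset.sum_congr rfl fun T _ => Finset.sum_congr rfl fun h _ => ?_
      rw [chi_add_right, chi_add_left]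
      ring
    rw [h2] at h1
    have h3 : ∑ T ∈ 𝒯, (c T * chi T z0) * ∑ h ∈ H, chi (T + T1) h =
        (∑ T ∈ 𝒯.filter (fun T => T + T1 ∈ W0), c T * chi T z0) * H.card := by
      rw [Finset.sum_filter, Finset.sum_mul]
      refine Finset.sum_congr rfl fun T _ => ?_
      rw [hsum]
      split_ifs <;> ring
    rw [h3] at h1
    exact (mul_eq_zero.1 h1).resolve_right hcard
  rw [hf]
  rw [← Finset.sum_fiberwise_of_maps_to (s := 𝒯) (t := 𝒯.image W0.mkQ) (g := W0.mkQ)
    (fun T hT => Finset.mem_image_of_mem _ hT)]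
  refine Finset.sum_eq_zero fun q hq => ?_
  obtain ⟨T1, hT1, rfl⟩ := Finset.mem_image.1 hq
  have hiff : ∀ T, W0.mkQ T = W0.mkQ T1 ↔ T + T1 ∈ W0 := by
    intro T
    rw [Submodule.mkQ_apply, Submodule.mkQ_apply, Submodule.Quotient.eq]
    have : T - T1 = T + T1 := by
      have h : ∀ a b : ZMod 2, a - b = a + b := by decide
      funext i
      exact h _ _
    rw [this]
  have hfil : 𝒯.filter (fun T => W0.mkQ T = W0.mkQ T1) = 𝒯.filter (fun T => T + T1 ∈ W0) :=
    Finset.filter_congr fun T _ => hiff T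
  rw [hfil]
  have hterm : ∀ T ∈ 𝒯.filter (fun T => T + T1 ∈ W0),
      c T * chi T z = (chi T1 z * chi T1 z0) * (c T * chi T z0) := by
    intro T hT
    rw [Finset.mem_filter] at hT
    have e1 := hz T hT.1 T1 hT1 hT.2
    have e2 : chi (T + T1) z = chi (T + T1) z0 := by
      unfold chi
      rw [e1]
    rw [chi_add_left, chi_add_left] at e2
    have e3 := Lin_chi_sq T1 z
    calc c T * chi T z = c T * (chi T z * chi T1 z) * chi T1 z := by
          rw [mul_assoc, mul_assoc (chi T z), e3, mul_one]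
      _ = _ := by rw [e2]; ring
  rw [Finset.sum_congr rfl hterm, ← Finset.mul_sum, hclass T1, mul_zero]

/-- Generators from sums of two elements of `𝒯`. If `W ≤ W0` has codimension at most `k` in `W0`, there are `s j, t j ∈ 𝒯`,
`j < k`, with `s j + t j ∈ W0`, such that all sums `T + T' ∈ W0` of elements of `𝒯` lie in `W ⊔ span {s j + t j}`.
(Choose a maximal family of such sums that is linearly independent modulo `W`; it has at most `k` elements; fill up with
`T0 + T0 = 0`.) -/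
theorem exists_gens {n k : ℕ} (𝒯 : Finset (Fin n → ZMod 2)) (h𝒯 : 𝒯.Nonempty)
    (W W0 : Submodule (ZMod 2) (Fin n → ZMod 2)) (hW : W ≤ W0) (hk : finrank (ZMod 2) W0 ≤ finrank (ZMod 2) W + k) :
    ∃ s t : Fin k → (Fin n → ZMod 2), (∀ j, s j ∈ 𝒯) ∧ (∀ j, t j ∈ 𝒯) ∧ (∀ j, s j + t j ∈ W0) ∧
      ∀ T ∈ 𝒯, ∀ T' ∈ 𝒯, T + T' ∈ W0 → T + T' ∈ W ⊔ Submodule.span (ZMod 2) (Set.range (fun j => s j + t j)) := by
  classical
  obtain ⟨T0, hT0⟩ := h𝒯
  set S : Set (Fin n → ZMod 2) := {v | ∃ T ∈ 𝒯, ∃ T' ∈ 𝒯, T + T' = v ∧ v ∈ W0} with hS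
  have hex := Submodule.exists_fun_fin_finrank_span_eq (ZMod 2) (W.mkQ '' S)
  have hmk : finrank (ZMod 2) (Submodule.span (ZMod 2) (W.mkQ '' S)) ≤ k := by
    have h1 : Submodule.span (ZMod 2) (W.mkQ '' S) ≤ W0.map W.mkQ := by
      rw [Submodule.span_le]
      rintro _ ⟨v, ⟨T, _, T', _, _, hv⟩, rfl⟩
      exact Submodule.mem_map_of_mem hv
    have h2 := Submodule.finrank_mono h1
    have h3 := LinearMap.finrank_range_add_finrank_ker (W.mkQ.comp W0.subtype)
    have h4 : LinearMap.range (W.mkQ.comp W0.subtype) = W0.map W.mkQ := by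
      rw [LinearMap.range_comp, Submodule.range_subtype]
    have h5 : LinearMap.ker (W.mkQ.comp W0.subtype) = W.comap W0.subtype := by
      rw [LinearMap.ker_comp, Submodule.ker_mkQ]
    have h6 : finrank (ZMod 2) (W.comap W0.subtype) = finrank (ZMod 2) W :=
      (Submodule.comapSubtypeEquivOfLe hW).finrank_eq
    rw [h4, h5, h6] at h3
    omega
  generalize finrank (ZMod 2) (Submodule.span (ZMod 2) (W.mkQ '' S)) = m at hex hmk
  obtain ⟨f, hf1, hf2, _⟩ := hex
  have hch : ∀ i : Fin m, ∃ a b : Fin n → ZMod 2, a ∈ 𝒯 ∧ b ∈ 𝒯 ∧ a + b ∈ W0 ∧ W.mkQ (a + b) = f i := by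
    intro i
    obtain ⟨v, ⟨T, hT, T', hT', hv, hvW⟩, hfi⟩ := hf1 i
    refine ⟨T, T', hT, hT', ?_, ?_⟩
    · rw [hv]; exact hvW
    · rw [hv]; exact hfi
  choose a b ha hb hab hfab using hch
  refine ⟨fun j => if h : (j : ℕ) < m then a ⟨j, h⟩ else T0, fun j => if h : (j : ℕ) < m then b ⟨j, h⟩ else T0,
    ?_, ?_, ?_, ?_⟩
  · intro j
    dsimp only
    split_ifs with h
    · exact ha _
    · exact hT0
  · intro j
    dsimp only
    split_ifs with h
    · exact hb _
    · exact hT0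
  · intro j
    dsimp only
    split_ifs with h
    · exact hab _
    · rw [Lin_add_self]
      exact W0.zero_mem
  · intro T hT T' hT' hTT
    have h1 : W.mkQ (T + T') ∈ Submodule.span (ZMod 2) (Set.range f) := by
      rw [hf2]
      exact Submodule.subset_span ⟨T + T', ⟨T, hT, T', hT', rfl, hTT⟩, rfl⟩
    rw [← Submodule.comap_map_mkQ, Submodule.mem_comap, Submodule.map_span]
    refine Submodule.span_mono ?_ h1
    rintro _ ⟨i, rfl⟩
    refine ⟨a i + b i, ⟨⟨i, lt_of_lt_of_le i.2 hmk⟩, ?_⟩, hfab i⟩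
    dsimp only
    rw [dif_pos i.2, dif_pos i.2]

/-- The potential drops. `W` is a subspace of `W'` and of `W1`; `z` and `z1` agree on `W` but not on `W' ⊓ W1`. Then
`dim (W1 ⊔ W') < dim W1 + dim W' - dim W`. -/
theorem drop {n r : ℕ} (W W' W1 : Submodule (ZMod 2) (Fin n → ZMod 2)) (h' : W ≤ W') (h1 : W ≤ W1)
    (z z1 : Fin n → ZMod 2) (hz : Agree W z z1) (hn : ¬ Agree (W' ⊓ W1) z z1)
    (hr : finrank (ZMod 2) W1 ≤ finrank (ZMod 2) W + (r + 1)) :
    finrank (ZMod 2) (W1 ⊔ W' : Submodule (ZMod 2) (Fin n → ZMod 2)) ≤ finrank (ZMod 2) W' + r := by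
  have hlt : W < W' ⊓ W1 := by
    refine lt_of_le_of_ne (le_inf h' h1) (fun he => hn ?_)
    rw [← he]
    exact hz
  have h2 := Submodule.finrank_lt_finrank_of_lt hlt
  have h3 := Submodule.finrank_sup_add_finrank_inf_eq W1 W'
  have h4 : finrank (ZMod 2) (W1 ⊓ W' : Submodule (ZMod 2) (Fin n → ZMod 2)) =
      finrank (ZMod 2) (W' ⊓ W1 : Submodule (ZMod 2) (Fin n → ZMod 2)) := by
    rw [inf_comm]
  omega

end Pool.Agent.H.MP_dd1c2e_lc
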