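import Mathlib
import Pool.Agent.H.MP_dd1c2e_lc.pdt.Lin
import Pool.Agent.H.MP_dd1c2e_lc.pdt.Comp

/-!
# The protocol
-/

namespace Pool.Agent.H.MP_dd1c2e_lc

open Finset Module

theorem Rounds_agree_sup_span {n : ℕ} {W : Submodule (ZMod 2) (Fin n → ZMod 2)} {S : Set (Fin n → ZMod 2)}
    {z z' : Fin n → ZMod 2} (h : Agree W z z') (hS : ∀ α ∈ S, dot α z = dot α z') :
    Agree (W ⊔ Submodule.span (ZMod 2) S) z z' := by
  let U : Submodule (ZMod 2) (Fin n → ZMod 2) :=
    { carrier := {α | dot α z = dot α z'}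
      add_mem' := fun {a b} ha hb => by
        show dot (a + b) z = dot (a + b) z'
        have ha' : dot a z = dot a z' := ha
        have hb' : dot b z = dot b z' := hb
        rw [dot_add_left, dot_add_left, ha', hb']
      zero_mem' := by
        show dot 0 z = dot 0 z'
        rw [dot_zero_left, dot_zero_left]
      smul_mem' := fun c a ha => by
        show dot (c • a) z = dot (c • a) z'
        have ha' : dot a z = dot a z' := ha
        rw [dot_smul_left, dot_smul_left, ha'] }
  have h1 : W ⊔ Submodule.span (ZMod 2) S ≤ U :=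
    sup_le (fun α hα => h α hα) (Submodule.span_le.2 fun α hα => hS α hα)
  exact fun α hα => h1 hα

theorem Rounds_agree_mono {n : ℕ} {W W' : Submodule (ZMod 2) (Fin n → ZMod 2)} (h : W ≤ W')
    {z z' : Fin n → ZMod 2} (hz : Agree W' z z') : Agree W z z' := fun α hα => hz α (h hα)

theorem Rounds_agree_trans {n : ℕ} {W : Submodule (ZMod 2) (Fin n → ZMod 2)} {z z' z'' : Fin n → ZMod 2}
    (h : Agree W z z') (h' : Agree W z' z'') : Agree W z z'' := fun α hα => (h α hα).trans (h' α hα)

theorem Rounds_agree_symm {n : ℕ} {W : Submodule (ZMod 2) (Fin n → ZMod 2)} {z z' : Fin n → ZMod 2}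
    (h : Agree W z z') : Agree W z' z := fun α hα => (h α hα).symm

/-- The choice of Alice's message in one round. Either the row `f` is one on the whole cell of `z0`, or it vanishes on the
cell of some point `zx` of it with respect to the larger space `W ⊔ span {s j + t j}`.

Proof. If `f z = true` for all `z` in the cell take `s = t =` constant `T0 ∈ 𝒯` (first alternative). Otherwise choose `zx` in
the cell with `f zx = false` and its certificate `Wc` (`hcert`), `W0 = W ⊔ Wc` (codimension at most `k` over `W`), so `f`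
vanishes at all points that agree with `zx` on `W0`; `exists_gens` gives `s`, `t`, and `vanish` shows that `f` vanishes at all
points that agree with `zx` on `W ⊔ span {s j + t j}`. -/
theorem message {n k : ℕ} (f : (Fin n → ZMod 2) → Bool) (𝒯 : Finset (Fin n → ZMod 2)) (h𝒯 : 𝒯.Nonempty)
    (hfour : ∃ c : (Fin n → ZMod 2) → ℝ, ∀ z, (if f z then (1 : ℝ) else 0) = ∑ T ∈ 𝒯, c T * chi T z)
    (hcert : ∀ z0, ∃ W : Submodule (ZMod 2) (Fin n → ZMod 2), finrank (ZMod 2) W ≤ k ∧ ∀ z, Agree W z z0 → f z = f z0)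
    (W : Submodule (ZMod 2) (Fin n → ZMod 2)) (z0 : Fin n → ZMod 2) :
    ∃ s t : Fin k → 𝒯, (∀ z, Agree W z z0 → f z = true) ∨
      ∃ zx, Agree W zx z0 ∧
        ∀ z, Agree (W ⊔ Submodule.span (ZMod 2) (Set.range (fun j => (s j : Fin n → ZMod 2) + t j))) z zx → f z = false := by
  classical
  by_cases h : ∀ z, Agree W z z0 → f z = true
  · obtain ⟨T0, hT0⟩ := h𝒯
    exact ⟨fun _ => ⟨T0, hT0⟩, fun _ => ⟨T0, hT0⟩, Or.inl h⟩
  · push Not at h
    obtain ⟨zx, hzx, hf⟩ := h
    have hf0 : f zx = false := by simpa using hf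
    obtain ⟨Wc, hWc, hc⟩ := hcert zx
    obtain ⟨s, t, hs, ht, _, hst⟩ := exists_gens (k := k) 𝒯 h𝒯 W (W ⊔ Wc) le_sup_left
      ((Submodule.finrank_add_le_finrank_add_finrank W Wc).trans (Nat.add_le_add_left hWc _))
    refine ⟨fun j => ⟨s j, hs j⟩, fun j => ⟨t j, ht j⟩, Or.inr ⟨zx, hzx, fun z hz => ?_⟩⟩
    obtain ⟨c, hfc⟩ := hfour
    have h1 := vanish (fun z => if f z then (1 : ℝ) else 0) 𝒯 c hfc (W ⊔ Wc) zx
      (fun z' hz' => by
        have h2 : f z' = false := (hc z' (Rounds_agree_mono le_sup_right hz')).trans hf0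
        show (if f z' = true then (1 : ℝ) else 0) = 0
        rw [h2]
        simp) z
      (fun T hT T' hT' hTT => hz _ (hst T hT T' hT' hTT))
    by_contra h3
    have h4 : f z = true := by simpa using h3
    have h5 : (if f z = true then (1 : ℝ) else 0) = 0 := h1
    rw [if_pos h4] at h5
    exact one_ne_zero h5

/-- The protocol. `W`: the parities whose values are already known (equal to those of `z0`). Potential `r`: every point `z1`
of the cell with value one has a certificate `W1 ⊇ W` with `dim W1 ≤ dim W + r`.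

Induction on `r`. If `r = 0` then `W1 = W`, so on the cell the row is constant: the answer depends on `x` only (`det_one`).
For `r + 1`: Alice sends `s, t : Fin k → 𝒯` from `message` (`det_alice` with `A = (Fin k → 𝒯) × (Fin k → 𝒯)`,
`card A ≤ 2^(2 k a)`); then Bob sends the bits `(s j + t j)·z` (`det_bob`, `2^k` values). In the remaining problem (fixed `s`,
`t`, fixed values) let `W' = W ⊔ span {s j + t j}` and let `z*` be one of Bob's remaining inputs (if there is none,
`det_empty`); all his remaining inputs agree with `z*` on `W'`. Let `x` be a remaining input of Alice and `z1` with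
`Agree W' z1 z*` and `f x z1 = true`; then `Agree W z1 z0`, so there is `W1` as above. If the first alternative of
`message` holds for `x`, take `W'` itself as the new certificate. Otherwise no point agrees with `zx` on `W'` and with `z1`
on `W1`, so by `exists_inter` `zx` and `z1` do not agree on `W' ⊓ W1`; by `drop` the space `W1 ⊔ W'` has dimension at most
`dim W' + r` and is the new certificate. The total cost is `(r+1)(2 k a + k) + 1`. -/
theorem rounds {X : Type} {n k a : ℕ} (f : X → (Fin n → ZMod 2) → Bool) (𝒯 : Finset (Fin n → ZMod 2))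
    (h𝒯 : 𝒯.Nonempty) (ha : 𝒯.card ≤ 2 ^ a)
    (hfour : ∀ x, ∃ c : (Fin n → ZMod 2) → ℝ, ∀ z, (if f x z then (1 : ℝ) else 0) = ∑ T ∈ 𝒯, c T * chi T z)
    (hcert : ∀ x z0, ∃ W : Submodule (ZMod 2) (Fin n → ZMod 2), finrank (ZMod 2) W ≤ k ∧
      ∀ z, Agree W z z0 → f x z = f x z0) :
    ∀ (r : ℕ) (X' Y' : Type) (ι : X' → X) (κ : Y' → (Fin n → ZMod 2)) (W : Submodule (ZMod 2) (Fin n → ZMod 2))
      (z0 : Fin n → ZMod 2), (∀ y, Agree W (κ y) z0) →
      (∀ x z1, Agree W z1 z0 → f (ι x) z1 = true → ∃ W1 : Submodule (ZMod 2) (Fin n → ZMod 2), W ≤ W1 ∧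
        finrank (ZMod 2) W1 ≤ finrank (ZMod 2) W + r ∧ ∀ z, Agree W1 z z1 → f (ι x) z = true) →
      DetComputes (fun x y => f (ι x) (κ y)) (r * (2 * k * a + k) + 1) := by
  classical
  intro r
  induction r with
  | zero =>
    intro X' Y' ι κ W z0 hκ hpot
    rw [zero_mul, zero_add]
    refine det_one (fun x => decide (∃ z1, Agree W z1 z0 ∧ f (ι x) z1 = true)) fun x y => ?_
    by_cases h : ∃ z1, Agree W z1 z0 ∧ f (ι x) z1 = true
    · rw [decide_eq_true h]
      obtain ⟨z1, hz1, hf1⟩ := h
      obtain ⟨W1, hW1, hd, hc⟩ := hpot x z1 hz1 hf1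
      have hWW : W = W1 := Submodule.eq_of_le_of_finrank_le hW1 hd
      subst hWW
      exact hc (κ y) (Rounds_agree_trans (hκ y) (Rounds_agree_symm hz1))
    · rw [decide_eq_false h]
      by_contra h1
      exact h ⟨κ y, hκ y, by simpa using h1⟩
  | succ r ih =>
    intro X' Y' ι κ W z0 hκ hpot
    have hm := fun x : X' => message (k := k) (f (ι x)) 𝒯 h𝒯 (hfour (ι x)) (hcert (ι x)) W z0
    choose s t hst using hm
    have hcost : (r + 1) * (2 * k * a + k) + 1 = 2 * k * a + (k + (r * (2 * k * a + k) + 1)) := by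
      ring
    rw [hcost]
    refine det_alice (A := (Fin k → 𝒯) × (Fin k → 𝒯)) (fun x => (s x, t x)) ?_ fun v => ?_
    · rw [Fintype.card_prod, Fintype.card_fun, Fintype.card_coe, Fintype.card_fin]
      calc 𝒯.card ^ k * 𝒯.card ^ k ≤ (2 ^ a) ^ k * (2 ^ a) ^ k :=
            Nat.mul_le_mul (Nat.pow_le_pow_left ha k) (Nat.pow_le_pow_left ha k)
        _ = 2 ^ (2 * k * a) := by
            rw [← pow_mul, ← pow_add]
            congr 1
            ring
    refine det_bob (A := Fin k → ZMod 2)
      (fun y j => dot ((v.1 j : Fin n → ZMod 2) + (v.2 j : Fin n → ZMod 2)) (κ y)) ?_ fun w => ?_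
    · rw [Fintype.card_fun, Fintype.card_fin, ZMod.card]
    set W' : Submodule (ZMod 2) (Fin n → ZMod 2) :=
      W ⊔ Submodule.span (ZMod 2) (Set.range (fun j => (v.1 j : Fin n → ZMod 2) + (v.2 j : Fin n → ZMod 2))) with hW'
    by_cases he : IsEmpty {y : Y' // (fun j => dot ((v.1 j : Fin n → ZMod 2) + (v.2 j : Fin n → ZMod 2)) (κ y)) = w}
    · exact det_empty _ _
    rw [not_isEmpty_iff] at he
    obtain ⟨ys⟩ := he
    have hWW' : W ≤ W' := le_sup_left
    refine ih {x : X' // (s x, t x) = v}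
      {y : Y' // (fun j => dot ((v.1 j : Fin n → ZMod 2) + (v.2 j : Fin n → ZMod 2)) (κ y)) = w}
      (fun x => ι x.1) (fun y => κ y.1) W' (κ ys.1) (fun y => ?_) fun x z1 hz1 hf1 => ?_
    · refine Rounds_agree_sup_span (Rounds_agree_trans (hκ y.1) (Rounds_agree_symm (hκ ys.1))) ?_
      rintro α ⟨j, rfl⟩
      exact congrFun (y.2.trans ys.2.symm) j
    · have hz10 : Agree W z1 z0 := Rounds_agree_trans (Rounds_agree_mono hWW' hz1) (hκ ys.1)
      obtain ⟨W1, hW1, hd, hc⟩ := hpot x.1 z1 hz10 hf1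
      have hx1 : s x.1 = v.1 := congrArg Prod.fst x.2
      have hx2 : t x.1 = v.2 := congrArg Prod.snd x.2
      have hm := hst x.1
      rw [hx1, hx2, ← hW'] at hm
      rcases hm with hm | ⟨zx, hzx, hm⟩
      · exact ⟨W', le_rfl, Nat.le_add_right _ _,
          fun z hz => hm z (Rounds_agree_trans (Rounds_agree_mono hWW' hz) hz10)⟩
      · refine ⟨W1 ⊔ W', le_sup_right, ?_, fun z hz => hc z (Rounds_agree_mono le_sup_left hz)⟩
        refine drop W W' W1 hWW' hW1 zx z1 (Rounds_agree_trans hzx (Rounds_agree_symm hz10)) ?_ hd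
        intro hn
        obtain ⟨y, hy, hy1⟩ := exists_inter W' W1 zx z1 hn
        have e1 := hm y hy
        have e2 := hc y hy1
        rw [e1] at e2
        exact Bool.false_ne_true e2

end Pool.Agent.H.MP_dd1c2e_lc
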