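import Mathlib
import Pool.Agent.H.MP_dd1c2e_lc.pdt.Rounds
import Pool.Agent.H.MP_dd1c2e_lc.pdt.Maj
import Pool.Agent.H.MP_dd1c2e_lc.QAcc

/-!
# Functions whose rows have small parity decision trees
-/

namespace Pool.Agent.H.MP_dd1c2e_lc

open Finset Module

/-- The set of all characters that occur in some row has at most `2^(50 (k+1)(q+1))` elements: `quantum_G2`, `amp_maj`,
`PDT.granular` (a nonzero coefficient has absolute value at least `δ = 2^(-k)`), `count_support` with this `δ` and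
`s = 2^(24 (k+1)(q+1))` (`δ/2 = (1/2)^(k+1)`; the quantum protocol is for `y ∈ Fin n → Bool`, pull back along `ofV`). -/
theorem card_support {X : Type} {n k q : ℕ} (F : X → (Fin n → Bool) → Bool)
    (h : ∀ x, ∃ P : PDT n, P.depth ≤ k ∧ ∀ y, P.eval y = F x y) (hq : QuantumComputes F q)
    (𝒯 : Finset (Fin n → ZMod 2))
    (h𝒯 : ∀ T ∈ 𝒯, ∃ x, hat (fun z => if F x (ofV z) then (1 : ℝ) else 0) T ≠ 0) :
    𝒯.card ≤ 2 ^ (50 * (k + 1) * (q + 1)) := by
  obtain ⟨P, hP, h01, h1, h0⟩ := quantum_G2 hq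
  obtain ⟨Q, hQ, hQF⟩ := amp_maj hP h01 h1 h0 k
  have hA : G2 (fun (x : X) (z : Fin n → ZMod 2) => ((Q x (ofV z) : ℝ) : ℂ))
      ((2 : ℝ) ^ (24 * (k + 1) * (q + 1))) := hQ.pull id ofV
  have hδ : (0 : ℝ) < (1 / 2) ^ k := by positivity
  have happ : ∀ (x : X) (z : Fin n → ZMod 2), ‖((Q x (ofV z) : ℝ) : ℂ) -
      (((if F x (ofV z) then (1 : ℝ) else 0 : ℝ)) : ℂ)‖ ≤ (1 / 2) ^ k / 2 := by
    intro x z
    rw [← Complex.ofReal_sub, Complex.norm_real, Real.norm_eq_abs]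
    refine (hQF x (ofV z)).trans (le_of_eq ?_)
    rw [pow_succ]
    ring
  have hT : ∀ T ∈ 𝒯, ∃ x, (1 / 2 : ℝ) ^ k ≤ |hat (fun z => if F x (ofV z) then (1 : ℝ) else 0) T| := by
    intro T hT
    obtain ⟨x, hx⟩ := h𝒯 T hT
    obtain ⟨R, hR, hRF⟩ := h x
    obtain ⟨m, hm⟩ := R.granular k hR T
    have e : (fun z => if R.eval (ofV z) then (1 : ℝ) else 0) =
        fun z : Fin n → ZMod 2 => if F x (ofV z) then (1 : ℝ) else 0 := by
      funext z
      rw [hRF]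
    rw [e] at hm
    refine ⟨x, ?_⟩
    have h2 : (0 : ℝ) < 2 ^ k := by positivity
    have hm0 : m ≠ 0 := by
      intro h0
      rw [h0, Int.cast_zero] at hm
      rcases mul_eq_zero.1 hm with h3 | h3
      · exact hx h3
      · exact h2.ne' h3
    have hm1 : (1 : ℝ) ≤ |(m : ℝ)| := by
      rw [← Int.cast_abs]
      exact_mod_cast Int.one_le_abs hm0
    rw [← hm, abs_mul, abs_of_pos h2] at hm1
    rw [one_div, inv_pow]
    rw [inv_le_iff_one_le_mul₀ h2]
    exact hm1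
  have hc := count_support (fun (x : X) (z : Fin n → ZMod 2) => if F x (ofV z) then (1 : ℝ) else 0)
    (fun (x : X) (z : Fin n → ZMod 2) => ((Q x (ofV z) : ℝ) : ℂ))
    ((2 : ℝ) ^ (24 * (k + 1) * (q + 1))) ((1 / 2) ^ k) hδ hA happ 𝒯 hT
  have hb : 4 * ((2 : ℝ) ^ (24 * (k + 1) * (q + 1))) ^ 2 / ((1 / 2) ^ k) ^ 2 ≤
      (2 : ℝ) ^ (50 * (k + 1) * (q + 1)) := by
    have e1 : 4 * ((2 : ℝ) ^ (24 * (k + 1) * (q + 1))) ^ 2 / ((1 / 2) ^ k) ^ 2 =
        2 ^ (2 + 24 * (k + 1) * (q + 1) * 2 + k * 2) := by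
      rw [one_div, inv_pow, inv_pow, div_inv_eq_mul, pow_add, pow_add, ← pow_mul, ← pow_mul]
      norm_num
    rw [e1]
    refine pow_le_pow_right₀ (by norm_num) ?_
    nlinarith [Nat.zero_le (k * q), Nat.zero_le k, Nat.zero_le q]
  have h5 := hc.trans hb
  exact_mod_cast h5

/-- If every row of `F` is computed by a parity decision tree of depth at most `k` (in Bob's bits), and `F` is computed by a
quantum protocol with `q` qubits and arbitrary prior entanglement, then `D(F) ≤ 103 (k+1)³ (q+1)`.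

Proof. Let `𝒯` be `{0}` together with all `T` with a nonzero coefficient in some row; `card 𝒯 ≤ 2^(50 (k+1)(q+1)) + 1 ≤ 2^a`,
`a = 51 (k+1)(q+1)`. Apply `rounds` to `f x z = F x (ofV z)`, `r = k`, `W = ⊥`, `z0 = 0`, `X' = X`, `Y' = (Fin n → Bool)`,
`κ = toV`; `hfour` from `fourier_support`, `hcert` from `PDT.cert`; the initial certificates are those of `PDT.cert`.
`k (2 k a + k) + 1 ≤ 103 (k+1)³ (q+1)`. -/
theorem pdtRows {X : Type} {n k q : ℕ} (F : X → (Fin n → Bool) → Bool)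
    (h : ∀ x, ∃ P : PDT n, P.depth ≤ k ∧ ∀ y, P.eval y = F x y) (hq : QuantumComputes F q) :
    DetComputes F (103 * (k + 1) ^ 3 * (q + 1)) := by
  classical
  set 𝒯 : Finset (Fin n → ZMod 2) := insert 0 (Finset.univ.filter fun T =>
    ∃ x, hat (fun z => if F x (ofV z) then (1 : ℝ) else 0) T ≠ 0) with h𝒯
  have hcard : 𝒯.card ≤ 2 ^ (51 * (k + 1) * (q + 1)) := by
    refine (Finset.card_insert_le _ _).trans ?_
    have h1 := card_support F h hq (Finset.univ.filter fun T =>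
      ∃ x, hat (fun z => if F x (ofV z) then (1 : ℝ) else 0) T ≠ 0)
      (fun T hT => (Finset.mem_filter.1 hT).2)
    refine (Nat.add_le_add_right h1 1).trans ?_
    have h2 : 50 * (k + 1) * (q + 1) + 1 ≤ 51 * (k + 1) * (q + 1) := by nlinarith [Nat.zero_le (k * q)]
    refine le_trans ?_ (Nat.pow_le_pow_right (by norm_num) h2)
    have h3 : 1 ≤ 2 ^ (50 * (k + 1) * (q + 1)) := Nat.one_le_two_pow
    rw [pow_succ]
    omega
  have hfour : ∀ x, ∃ c : (Fin n → ZMod 2) → ℝ, ∀ z,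
      (if F x (ofV z) then (1 : ℝ) else 0) = ∑ T ∈ 𝒯, c T * chi T z := fun x =>
    ⟨hat (fun z => if F x (ofV z) then (1 : ℝ) else 0), fun z =>
      fourier_support (fun z => if F x (ofV z) then (1 : ℝ) else 0) 𝒯 (fun T hT =>
        Finset.mem_insert_of_mem (Finset.mem_filter.2 ⟨Finset.mem_univ _, x, hT⟩)) z⟩
  have hcert : ∀ x z0, ∃ W : Submodule (ZMod 2) (Fin n → ZMod 2), finrank (ZMod 2) W ≤ k ∧
      ∀ z, Agree W z z0 → F x (ofV z) = F x (ofV z0) := by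
    intro x z0
    obtain ⟨P, hP, hPF⟩ := h x
    obtain ⟨W, hW, h1⟩ := P.cert z0
    refine ⟨W, hW.trans hP, fun z hz => ?_⟩
    rw [← hPF, ← hPF]
    exact h1 z hz
  have hr := rounds (fun (x : X) (z : Fin n → ZMod 2) => F x (ofV z)) 𝒯 ⟨0, Finset.mem_insert_self _ _⟩
    hcard hfour hcert k X (Fin n → Bool) id toV ⊥ 0 (fun y α hα => by
      rw [(Submodule.mem_bot (ZMod 2)).1 hα, dot_zero_left, dot_zero_left]) (fun x z1 _ h1 => by
      obtain ⟨W, hW, h2⟩ := hcert x z1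
      refine ⟨W, bot_le, ?_, fun z hz => ?_⟩
      · rw [finrank_bot, zero_add]
        exact hW
      · exact (h2 z hz).trans h1)
  obtain ⟨P, hP, hPF⟩ := hr
  refine ⟨P, hP.trans ?_, fun x y => ?_⟩
  · have h1 : k * (2 * k * (51 * (k + 1) * (q + 1)) + k) + 1 ≤ 103 * (k + 1) ^ 3 * (q + 1) := by
      have e1 : 103 * (k + 1) ^ 3 * (q + 1) = k * (2 * k * (51 * (k + 1) * (q + 1)) + k) + 1 +
          (102 * (k + 1) * (q + 1) * (2 * k + 1) + (k + 1) ^ 3 * (q + 1) - (k ^ 2 + 1)) := by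
        have h2 : k ^ 2 + 1 ≤ (k + 1) ^ 3 * (q + 1) := by
          have h3 : k ^ 2 + 1 ≤ (k + 1) ^ 3 := by nlinarith [Nat.zero_le k, Nat.zero_le (k ^ 2), Nat.zero_le (k ^ 3)]
          exact h3.trans (Nat.le_mul_of_pos_right _ (Nat.succ_pos q))
        have h4 : k ^ 2 + 1 ≤ 102 * (k + 1) * (q + 1) * (2 * k + 1) + (k + 1) ^ 3 * (q + 1) :=
          h2.trans (Nat.le_add_left _ _)
        zify [h4]
        ring
      rw [e1]
      exact Nat.le_add_right _ _
    exact h1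
  · rw [hPF]
    show F x (ofV (toV y)) = F x y
    rw [ofV_toV]

end Pool.Agent.H.MP_dd1c2e_lc
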